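import Pool.Agent.SG33.MainB

/-!
# MP_ff230c_nt, Q1, in the Cramer-Granville random model of the primes

`coin z m` (file GM53/Defs) gives `true` the probability `prob z m`, which is `0` if `m < 2` or `m` has a prime
factor at most `z m`, and `min 1 (M (z m) / log m)` otherwise, `M y = ∏ (1 - 1/p)⁻¹` over the primes `p ≤ y`.
The random set is `{m | ω m = true}` for `ω` distributed by the product measure, and `pc A x` (file SG33/Fail)
is the number of elements of `A` that are at most `x`.
-/

set_option autoImplicit false

namespace Pool.Agent.Results.MP_ff230c_nt.SophieGermainModel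

open MeasureTheory Filter Pool.Agent.GM53 Pool.Agent.SG33

/-- The statement of Q1 for `n`, with the set `A` in the role of the primes. -/
def SophieGermain (A : Set ℕ) (n : ℕ) : Prop :=
  ∃ p ∈ A, p < n ∧ pc A (n - p) ∈ A ∧ 2 * pc A (n - p) + 1 ∈ A

/-- In the random model with sieving limits `z m` such that the product of the primes up to `z m`, times
`M (z m)`, is at most `(log m) / 10` for large `m`, the statement holds almost surely for all large `n`. -/
theorem result (z : ℕ → ℕ)
    (hz : ∀ᶠ m : ℕ in atTop, (primorial (z m) : ℝ) * mert (z m) ≤ Real.log m / 10) :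
    ∀ᵐ ω ∂(Measure.infinitePi (coin z)), ∀ᶠ n : ℕ in atTop, SophieGermain {m | ω m = true} n := by
  filter_upwards [Pool.Agent.SG33.mainB z hz] with ω hω
  filter_upwards [hω] with n hn
  obtain ⟨⟨p, hp, hpn, h1⟩, -⟩ := hn
  exact ⟨p, hp, hpn, h1 _ (by simp [S1]), h1 _ (by simp [S1])⟩

end Pool.Agent.Results.MP_ff230c_nt.SophieGermainModel
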